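import Mathlib

/-!
# A division quaternion order over the Gaussian integers

We show that the norm form `a² - i b² - (2+i)(c² - i d²)` is anisotropic over `ℤ[i]`.
-/

namespace Pool.Agent.J6H37.Twistor

/-- The Gaussian integer `i`. -/
def gi : GaussianInt := ⟨0, 1⟩

/-- The Gaussian prime `2 + i`. -/
def gp : GaussianInt := ⟨2, 1⟩

/-- Reduction modulo `2 + i`: the ring homomorphism `ℤ[i] → ℤ/5` with `i ↦ 3`. -/
def red (a : GaussianInt) : ZMod 5 := (a.re : ZMod 5) + 3 * (a.im : ZMod 5)

lemma red_mul (a b : GaussianInt) : red (a * b) = red a * red b := by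
  simp only [red, Zsqrtd.re_mul, Zsqrtd.im_mul]
  push_cast
  have h : ((-1 : ZMod 5)) = 9 := by decide
  linear_combination (a.im : ZMod 5) * (b.im : ZMod 5) * h

lemma red_sub (a b : GaussianInt) : red (a - b) = red a - red b := by
  simp only [red, Zsqrtd.re_sub, Zsqrtd.im_sub]
  push_cast
  ring

lemma red_gi : red gi = 3 := by decide

lemma red_gp : red gp = 0 := by decide

lemma dvd_of_red {a : GaussianInt} (h : red a = 0) : ∃ b, a = gp * b := by
  obtain ⟨x, y⟩ := a
  have h1 : ((x + 3 * y : ℤ) : ZMod 5) = 0 := by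
    simpa [red] using h
  rw [ZMod.intCast_zmod_eq_zero_iff_dvd] at h1
  obtain ⟨k, hk⟩ := h1
  refine ⟨⟨2 * k - y, y - k⟩, ?_⟩
  ext <;> simp [gp] <;> push_cast at hk <;> linarith

lemma anis_mod : ∀ x y : ZMod 5, x * x - 3 * (y * y) = 0 → x = 0 ∧ y = 0 := by decide

/-- one step of the descent -/
lemma step {a b c d : GaussianInt} (h : a * a - gi * (b * b) = gp * (c * c - gi * (d * d))) :
    ∃ a' b', a = gp * a' ∧ b = gp * b' ∧
      c * c - gi * (d * d) = gp * (a' * a' - gi * (b' * b')) := by
  have h1 : red a * red a - 3 * (red b * red b) = 0 := by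
    have := congrArg red h
    simpa [red_mul, red_sub, red_gi, red_gp] using this
  obtain ⟨ha, hb⟩ := anis_mod _ _ h1
  obtain ⟨a', rfl⟩ := dvd_of_red ha
  obtain ⟨b', rfl⟩ := dvd_of_red hb
  refine ⟨a', b', rfl, rfl, ?_⟩
  have hgp : gp ≠ 0 := by decide
  apply mul_left_cancel₀ hgp
  rw [← h]
  ring

lemma norm_gp_mul (a : GaussianInt) : (gp * a).norm = 5 * a.norm := by
  rw [Zsqrtd.norm_mul]
  rfl

lemma aniso_aux : ∀ n : ℕ, ∀ a b c d : GaussianInt,
    a.norm + b.norm + c.norm + d.norm ≤ n →
    a * a - gi * (b * b) = gp * (c * c - gi * (d * d)) → a = 0 ∧ b = 0 ∧ c = 0 ∧ d = 0 := by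
  intro n
  induction n with
  | zero =>
    intro a b c d hn _
    have ha := GaussianInt.norm_nonneg a
    have hb := GaussianInt.norm_nonneg b
    have hc := GaussianInt.norm_nonneg c
    have hd := GaussianInt.norm_nonneg d
    push_cast at hn
    refine ⟨GaussianInt.norm_eq_zero.1 (by linarith), GaussianInt.norm_eq_zero.1 (by linarith),
      GaussianInt.norm_eq_zero.1 (by linarith), GaussianInt.norm_eq_zero.1 (by linarith)⟩
  | succ n ih =>
    intro a b c d hn h
    obtain ⟨a', b', rfl, rfl, h1⟩ := step h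
    obtain ⟨c', d', rfl, rfl, h2⟩ := step h1
    simp only [norm_gp_mul] at hn
    have ha := GaussianInt.norm_nonneg a'
    have hb := GaussianInt.norm_nonneg b'
    have hc := GaussianInt.norm_nonneg c'
    have hd := GaussianInt.norm_nonneg d'
    push_cast at hn
    by_cases hz : a'.norm + b'.norm + c'.norm + d'.norm = 0
    · have e1 : a' = 0 := GaussianInt.norm_eq_zero.1 (by linarith)
      have e2 : b' = 0 := GaussianInt.norm_eq_zero.1 (by linarith)
      have e3 : c' = 0 := GaussianInt.norm_eq_zero.1 (by linarith)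
      have e4 : d' = 0 := GaussianInt.norm_eq_zero.1 (by linarith)
      subst e1 e2 e3 e4
      simp
    · have := ih a' b' c' d' (by omega) h2
      obtain ⟨e1, e2, e3, e4⟩ := this
      subst e1 e2 e3 e4
      simp

/-- The norm form of the quaternion algebra `(i, 2+i)` over `ℚ(i)` is anisotropic. -/
theorem aniso {a b c d : GaussianInt}
    (h : a * a - gi * (b * b) = gp * (c * c - gi * (d * d))) :
    a = 0 ∧ b = 0 ∧ c = 0 ∧ d = 0 := by
  have ha := GaussianInt.norm_nonneg a
  have hb := GaussianInt.norm_nonneg b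
  have hc := GaussianInt.norm_nonneg c
  have hd := GaussianInt.norm_nonneg d
  exact aniso_aux (a.norm + b.norm + c.norm + d.norm).toNat a b c d (by omega) h

end Pool.Agent.J6H37.Twistor
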