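import Mathlib
import Pool.Agent.J6H37.Twistor.Quat

/-!
# A cocompact congruence lattice in `SL(2, ℂ)`
-/

namespace Pool.Agent.J6H37.Twistor

open Matrix

/-- A square root of `i`. -/
noncomputable def sI : ℂ := (IsAlgClosed.exists_pow_nat_eq Complex.I (n := 2) (by norm_num)).choose

lemma sI_sq : sI * sI = Complex.I := by
  have := (IsAlgClosed.exists_pow_nat_eq Complex.I (n := 2) (by norm_num)).choose_spec
  rw [← this, sI, sq]

lemma sI_ne : sI ≠ 0 := by
  intro h
  have := sI_sq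
  rw [h, mul_zero] at this
  exact Complex.I_ne_zero this.symm

/-- The complex number `2 + i`. -/
noncomputable def bI : ℂ := 2 + Complex.I

lemma bI_ne : bI ≠ 0 := by
  intro h
  have := congrArg Complex.re h
  simp [bI] at this

/-- The matrix of the quaternion with coordinates `v`. -/
noncomputable def qm (v : Fin 4 → ℂ) : Matrix (Fin 2) (Fin 2) ℂ :=
  !![v 0 + v 1 * sI, (v 2 + v 3 * sI) * bI; v 2 - v 3 * sI, v 0 - v 1 * sI]

/-- quaternion multiplication in coordinates -/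
noncomputable def qmul (v w : Fin 4 → ℂ) : Fin 4 → ℂ :=
  ![v 0 * w 0 + Complex.I * (v 1 * w 1) + bI * (v 2 * w 2) - Complex.I * bI * (v 3 * w 3),
    v 0 * w 1 + v 1 * w 0 - bI * (v 2 * w 3) + bI * (v 3 * w 2),
    v 0 * w 2 + v 2 * w 0 + Complex.I * (v 1 * w 3) - Complex.I * (v 3 * w 1),
    v 0 * w 3 + v 3 * w 0 + v 1 * w 2 - v 2 * w 1]

lemma qm_mul (v w : Fin 4 → ℂ) : qm v * qm w = qm (qmul v w) := by
  ext i j
  fin_cases i <;> fin_cases j <;>
    simp [qm, qmul, Matrix.mul_apply, Fin.sum_univ_two] <;>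
    rw [← sI_sq] <;> ring

lemma det_qm (v : Fin 4 → ℂ) : (qm v).det =
    v 0 * v 0 - Complex.I * (v 1 * v 1) - bI * (v 2 * v 2 - Complex.I * (v 3 * v 3)) := by
  simp [qm, Matrix.det_fin_two]
  rw [← sI_sq]
  ring

lemma qm_add (v w : Fin 4 → ℂ) : qm (v + w) = qm v + qm w := by
  ext i j
  fin_cases i <;> fin_cases j <;> simp [qm] <;> ring

lemma qm_smul (c : ℂ) (v : Fin 4 → ℂ) : qm (c • v) = c • qm v := by
  ext i j
  fin_cases i <;> fin_cases j <;> simp [qm] <;> ring

/-- Gaussian integer vectors as complex vectors. -/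
noncomputable def gv (v : Fin 4 → GaussianInt) : Fin 4 → ℂ := fun i => ((v i : GaussianInt) : ℂ)

lemma gi_coe : ((gi : GaussianInt) : ℂ) = Complex.I := by
  simp [gi, GaussianInt.toComplex_def]

lemma gp_coe : ((gp : GaussianInt) : ℂ) = bI := by
  simp [gp, GaussianInt.toComplex_def, bI]

/-- quaternion multiplication on Gaussian integer coordinates -/
def gmul (v w : Fin 4 → GaussianInt) : Fin 4 → GaussianInt :=
  ![v 0 * w 0 + gi * (v 1 * w 1) + gp * (v 2 * w 2) - gi * gp * (v 3 * w 3),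
    v 0 * w 1 + v 1 * w 0 - gp * (v 2 * w 3) + gp * (v 3 * w 2),
    v 0 * w 2 + v 2 * w 0 + gi * (v 1 * w 3) - gi * (v 3 * w 1),
    v 0 * w 3 + v 3 * w 0 + v 1 * w 2 - v 2 * w 1]

lemma gv_gmul (v w : Fin 4 → GaussianInt) : gv (gmul v w) = qmul (gv v) (gv w) := by
  funext i
  fin_cases i <;> simp [gv, gmul, qmul, gi_coe, gp_coe]

/-- the determinant as a Gaussian integer -/
def gdet (v : Fin 4 → GaussianInt) : GaussianInt :=
  v 0 * v 0 - gi * (v 1 * v 1) - gp * (v 2 * v 2 - gi * (v 3 * v 3))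

lemma det_gv (v : Fin 4 → GaussianInt) : (qm (gv v)).det = ((gdet v : GaussianInt) : ℂ) := by
  rw [det_qm]
  simp [gv, gdet, gi_coe, gp_coe]

lemma gdet_ne_zero {v : Fin 4 → GaussianInt} (hv : v ≠ 0) : gdet v ≠ 0 := by
  intro h
  apply hv
  have h' : v 0 * v 0 - gi * (v 1 * v 1) = gp * (v 2 * v 2 - gi * (v 3 * v 3)) := by
    have := h
    unfold gdet at this
    linear_combination this
  obtain ⟨h0, h1, h2, h3⟩ := aniso h'
  funext i
  fin_cases i <;> assumption

/-- conjugate quaternion -/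
def gadj (v : Fin 4 → GaussianInt) : Fin 4 → GaussianInt := ![v 0, - v 1, - v 2, - v 3]

lemma qm_gadj (v : Fin 4 → GaussianInt) : qm (gv (gadj v)) = (qm (gv v)).adjugate := by
  rw [Matrix.adjugate_fin_two]
  ext i j
  fin_cases i <;> fin_cases j <;> simp [qm, gv, gadj] <;> ring

/-- Membership in the principal congruence lattice of level `3`. -/
def InLam (g : SpecialLinearGroup (Fin 2) ℂ) : Prop :=
  ∃ v : Fin 4 → GaussianInt, (g : Matrix (Fin 2) (Fin 2) ℂ) = 1 + (3 : ℂ) • qm (gv v)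

lemma coe3 : ((3 : GaussianInt) : ℂ) = 3 := by
  rw [GaussianInt.toComplex_def]
  have h1 : (3 : GaussianInt).re = 3 := rfl
  have h2 : (3 : GaussianInt).im = 0 := rfl
  rw [h1, h2]
  simp

lemma inLam_one : InLam 1 := by
  refine ⟨0, ?_⟩
  have : qm (gv 0) = 0 := by
    ext i j; fin_cases i <;> fin_cases j <;> simp [qm, gv]
  simp [this]

lemma inLam_mul {g h : SpecialLinearGroup (Fin 2) ℂ} (hg : InLam g) (hh : InLam h) :
    InLam (g * h) := by
  obtain ⟨v, hv⟩ := hg
  obtain ⟨w, hw⟩ := hh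
  refine ⟨v + w + (fun i => 3 * gmul v w i), ?_⟩
  have h1 : gv (v + w + (fun i => 3 * gmul v w i)) = gv v + gv w + (3 : ℂ) • gv (gmul v w) := by
    funext i; simp [gv, coe3]
  change (g : Matrix (Fin 2) (Fin 2) ℂ) * (h : Matrix (Fin 2) (Fin 2) ℂ) = _
  rw [hv, hw, h1, qm_add, qm_add, qm_smul, gv_gmul, ← qm_mul]
  simp only [mul_add, add_mul, one_mul, mul_one, Matrix.smul_mul, Matrix.mul_smul, smul_add]
  abel

lemma inLam_inv {g : SpecialLinearGroup (Fin 2) ℂ} (hg : InLam g) : InLam g⁻¹ := by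
  obtain ⟨v, hv⟩ := hg
  refine ⟨gadj v, ?_⟩
  change (g : Matrix (Fin 2) (Fin 2) ℂ).adjugate = _
  rw [hv, qm_gadj, Matrix.adjugate_fin_two, Matrix.adjugate_fin_two]
  ext i j
  fin_cases i <;> fin_cases j <;> simp

/-- The principal congruence lattice of level `3` of the quaternion order, in `SL(2, ℂ)`. -/
noncomputable def Lam : Subgroup (SpecialLinearGroup (Fin 2) ℂ) where
  carrier := {g | InLam g}
  one_mem' := inLam_one
  mul_mem' := inLam_mul
  inv_mem' := inLam_inv

lemma mem_Lam {g : SpecialLinearGroup (Fin 2) ℂ} : g ∈ Lam ↔ InLam g := Iff.rfl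

/-- If `w ≡ v` modulo `3 n` with `n` an integer multiple of the common determinant, then
`qm w = γ * qm v` for some `γ` in the congruence lattice. -/
lemma exists_Lam_of_congr {v w z : Fin 4 → GaussianInt} {m : GaussianInt}
    (hdet : gdet v = gdet w) (hv : v ≠ 0)
    (hz : ∀ i, w i = v i + 3 * (m * gdet v) * z i) :
    ∃ g ∈ Lam, qm (gv w) = (g : Matrix (Fin 2) (Fin 2) ℂ) * qm (gv v) := by
  have hd : ((gdet v : GaussianInt) : ℂ) ≠ 0 := by
    intro h
    exact gdet_ne_zero hv (by simpa using h)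
  -- the element
  set u : Fin 4 → GaussianInt := fun i => m * gmul z (gadj v) i with hu
  have hgvu : qm (gv u) = (m : ℂ) • (qm (gv z) * (qm (gv v)).adjugate) := by
    have : gv u = (m : ℂ) • gv (gmul z (gadj v)) := by
      funext i; simp [gv, hu]
    rw [this, qm_smul, gv_gmul, ← qm_mul, qm_gadj]
  have hgw : gv w = gv v + (3 * ((m : ℂ) * ((gdet v : GaussianInt) : ℂ))) • gv z := by
    funext i
    simp [gv, hz i, coe3]
  have hmul : (1 + (3 : ℂ) • qm (gv u)) * qm (gv v) = qm (gv w) := by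
    rw [hgvu, add_mul, one_mul, hgw, qm_add, qm_smul, Matrix.smul_mul, Matrix.smul_mul, mul_assoc,
      Matrix.adjugate_mul, det_gv]
    simp only [Matrix.mul_smul, smul_smul, mul_one]
  have hdet1 : (1 + (3 : ℂ) • qm (gv u)).det = 1 := by
    have := congrArg Matrix.det hmul
    rw [Matrix.det_mul, det_gv, det_gv, ← hdet] at this
    exact mul_right_cancel₀ hd (by rw [this, one_mul])
  exact ⟨⟨_, hdet1⟩, ⟨u, rfl⟩, hmul.symm⟩

end Pool.Agent.J6H37.Twistor
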