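import Mathlib
import Pool.Agent.J6H37.Twistor.Lattice

/-!
# Minkowski's theorem and cocompactness of the lattice
-/

namespace Pool.Agent.J6H37.Twistor

open Matrix MeasureTheory Module

/-- The four entries of a `2 × 2` matrix. -/
noncomputable def flat (M : Matrix (Fin 2) (Fin 2) ℂ) : Fin 4 → ℂ := ![M 0 0, M 1 0, M 0 1, M 1 1]

/-- coordinates of the quaternion matrix -/
noncomputable def Amat : Matrix (Fin 4) (Fin 4) ℂ :=
  !![1, sI, 0, 0; 0, 0, 1, -sI; 0, 0, bI, sI * bI; 1, -sI, 0, 0]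

/-- left multiplication as a `4 × 4` matrix -/
noncomputable def Lmat (g : Matrix (Fin 2) (Fin 2) ℂ) : Matrix (Fin 4) (Fin 4) ℂ :=
  !![g 0 0, g 0 1, 0, 0; g 1 0, g 1 1, 0, 0; 0, 0, g 0 0, g 0 1; 0, 0, g 1 0, g 1 1]

lemma Amat_mulVec (v : Fin 4 → ℂ) : Amat *ᵥ v = flat (qm v) := by
  funext i
  fin_cases i <;> simp [Amat, flat, qm, Matrix.mulVec, dotProduct, Fin.sum_univ_four] <;> ring

lemma Lmat_mulVec (g M : Matrix (Fin 2) (Fin 2) ℂ) : Lmat g *ᵥ flat M = flat (g * M) := by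
  funext i
  fin_cases i <;> simp [Lmat, flat, Matrix.mulVec, dotProduct, Fin.sum_univ_four,
    Matrix.mul_apply, Fin.sum_univ_two]

lemma det_Amat : Amat.det ≠ 0 := by
  have : Amat.det = -(4 * Complex.I * bI) := by
    rw [← sI_sq]
    simp [Amat, Matrix.det_succ_row_zero, Fin.sum_univ_succ, Fin.succAbove, submatrix]
    ring
  rw [this]
  simp [bI_ne]

lemma det_Lmat (g : Matrix (Fin 2) (Fin 2) ℂ) : (Lmat g).det = g.det ^ 2 := by
  simp [Lmat, Matrix.det_succ_row_zero, Fin.sum_univ_succ, Fin.succAbove, submatrix]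
  ring

/-- The real linear map `v ↦ flat (g * qm v)`. -/
noncomputable def Tg (g : Matrix (Fin 2) (Fin 2) ℂ) : (Fin 4 → ℂ) →ₗ[ℝ] (Fin 4 → ℂ) :=
  (Matrix.toLin' (Lmat g * Amat)).restrictScalars ℝ

lemma Tg_apply (g : Matrix (Fin 2) (Fin 2) ℂ) (v : Fin 4 → ℂ) : Tg g v = flat (g * qm v) := by
  simp only [Tg, LinearMap.coe_restrictScalars, Matrix.toLin'_apply, ← Matrix.mulVec_mulVec,
    Amat_mulVec, Lmat_mulVec]

lemma det_Tg (g : SpecialLinearGroup (Fin 2) ℂ) :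
    LinearMap.det (Tg (g : Matrix (Fin 2) (Fin 2) ℂ)) = Complex.normSq Amat.det := by
  have h1 : LinearMap.det ((Matrix.toLin' (Lmat (g : Matrix (Fin 2) (Fin 2) ℂ) * Amat)).restrictScalars ℝ) =
      Algebra.norm ℝ (LinearMap.det (Matrix.toLin' (Lmat (g : Matrix (Fin 2) (Fin 2) ℂ) * Amat))) :=
    LinearMap.det_restrictScalars
  have h2 : (g : Matrix (Fin 2) (Fin 2) ℂ).det = 1 := g.2
  rw [Tg, h1, LinearMap.det_toLin', Matrix.det_mul, det_Lmat, h2,
    Algebra.norm_complex_apply]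
  simp

/-- The real basis of `ℂ⁴` spanning the Gaussian integer vectors. -/
noncomputable def bas : Basis (Σ _ : Fin 4, Fin 2) ℝ (Fin 4 → ℂ) :=
  Pi.basis (fun _ => Complex.basisOneI)

lemma mem_lattice {v : Fin 4 → ℂ} (hv : v ∈ Submodule.span ℤ (Set.range bas)) :
    ∃ w : Fin 4 → GaussianInt, v = gv w := by
  rw [Module.Basis.mem_span_iff_repr_mem] at hv
  choose f hf using hv
  refine ⟨fun i => ⟨f ⟨i, 0⟩, f ⟨i, 1⟩⟩, ?_⟩
  funext i
  have h0 := hf ⟨i, 0⟩
  have h1 := hf ⟨i, 1⟩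
  simp [bas, Pi.basis_repr] at h0 h1
  apply Complex.ext
  · simp [gv, h0]
  · simp [gv, h1]

/-- Uniform Minkowski bound. -/
theorem minkowski : ∃ R : ℝ, 0 < R ∧ ∀ g : SpecialLinearGroup (Fin 2) ℂ,
    ∃ v : Fin 4 → GaussianInt, v ≠ 0 ∧ ‖Tg (g : Matrix (Fin 2) (Fin 2) ℂ) (gv v)‖ ≤ R := by
  let μ : Measure (Fin 4 → ℂ) := volume
  have hF : μ (ZSpan.fundamentalDomain bas) < ⊤ :=
    (ZSpan.fundamentalDomain_isBounded bas).measure_lt_top
  have hD : 0 < Complex.normSq Amat.det := Complex.normSq_pos.2 det_Amat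
  have hB : 0 < μ (Metric.ball (0 : Fin 4 → ℂ) 1) := Metric.measure_ball_pos _ _ one_pos
  have hBt : μ (Metric.ball (0 : Fin 4 → ℂ) 1) < ⊤ := measure_ball_lt_top
  set D := Complex.normSq Amat.det with hDdef
  -- choose R
  set a : ℝ := (μ (ZSpan.fundamentalDomain bas)).toReal with ha
  set b : ℝ := (μ (Metric.ball (0 : Fin 4 → ℂ) 1)).toReal with hb
  have hbpos : 0 < b := ENNReal.toReal_pos hB.ne' hBt.ne
  have ha0 : 0 ≤ a := ENNReal.toReal_nonneg
  have hfin : finrank ℝ (Fin 4 → ℂ) = 8 := by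
    simp [Module.finrank_pi_fintype, Complex.finrank_real_complex]
  obtain ⟨R, hR1, hR2⟩ : ∃ R : ℝ, 1 ≤ R ∧ a * 2 ^ 8 < D⁻¹ * (R ^ 8 * b) := by
    refine ⟨a * 2 ^ 8 * D / b + 1, ?_, ?_⟩
    · have : 0 ≤ a * 2 ^ 8 * D / b := by positivity
      linarith
    · set t := a * 2 ^ 8 * D / b with ht
      have ht0 : 0 ≤ t := by positivity
      have h1 : t + 1 ≤ (t + 1) ^ 8 := le_self_pow₀ (by linarith) (by norm_num)
      have h2 : a * 2 ^ 8 = D⁻¹ * (t * b) := by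
        rw [ht]; field_simp
      rw [h2]
      have : t < (t + 1) ^ 8 := by linarith
      gcongr
  refine ⟨R, by linarith, fun g => ?_⟩
  set S : Set (Fin 4 → ℂ) := (Tg (g : Matrix (Fin 2) (Fin 2) ℂ)) ⁻¹' (Metric.closedBall 0 R) with hS
  have hsymm : ∀ x ∈ S, -x ∈ S := by
    intro x hx
    simpa [hS] using hx
  have hconv : Convex ℝ S := (convex_closedBall _ _).linear_preimage _
  have hvol : μ S = ENNReal.ofReal (D⁻¹ * (R ^ 8 * b)) := by
    rw [hS, Measure.addHaar_preimage_linearMap _ (by rw [det_Tg]; exact hD.ne'),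
      Measure.addHaar_closedBall _ _ (by linarith), hfin, det_Tg,
      ENNReal.ofReal_mul (by positivity), ENNReal.ofReal_mul (by positivity), hb,
      ENNReal.ofReal_toReal hBt.ne, abs_of_pos (by positivity)]
  have hlt : μ (ZSpan.fundamentalDomain bas) * 2 ^ finrank ℝ (Fin 4 → ℂ) < μ S := by
    rw [hfin, hvol, ← ENNReal.ofReal_toReal hF.ne, ← ha]
    have : (2 : ENNReal) ^ 8 = ENNReal.ofReal (2 ^ 8) := by
      rw [ENNReal.ofReal_pow (by norm_num)]; norm_num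
    rw [this, ← ENNReal.ofReal_mul ha0]
    exact ENNReal.ofReal_lt_ofReal_iff_of_nonneg (by positivity) |>.2 hR2
  have : Countable (Submodule.span ℤ (Set.range bas)).toAddSubgroup :=
    inferInstanceAs (Countable (Submodule.span ℤ (Set.range bas)))
  obtain ⟨x, hx0, hxS⟩ := exists_ne_zero_mem_lattice_of_measure_mul_two_pow_lt_measure
    (ZSpan.isAddFundamentalDomain' bas μ) hsymm hconv hlt
  obtain ⟨w, hw⟩ := mem_lattice (v := (x : Fin 4 → ℂ)) x.2
  refine ⟨w, ?_, ?_⟩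
  · rintro rfl
    apply hx0
    apply Subtype.ext
    rw [hw]
    funext i
    simp [gv]
  · rw [← hw]
    simpa [hS] using hxS

end Pool.Agent.J6H37.Twistor
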