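import Mathlib
import Pool.Agent.J6H37.Twistor.Minkowski

/-!
# Cocompactness and discreteness of the lattice
-/

namespace Pool.Agent.J6H37.Twistor

open Matrix

/-- entrywise bound -/
def EB (M : Matrix (Fin 2) (Fin 2) ℂ) (C : ℝ) : Prop := ∀ i j, ‖M i j‖ ≤ C

lemma EB.mono {M : Matrix (Fin 2) (Fin 2) ℂ} {C C' : ℝ} (h : EB M C) (hC : C ≤ C') : EB M C' :=
  fun i j => (h i j).trans hC

lemma EB.mul {M N : Matrix (Fin 2) (Fin 2) ℂ} {C C' : ℝ} (hM : EB M C) (hN : EB N C') :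
    EB (M * N) (2 * C * C') := by
  intro i j
  have hC : 0 ≤ C := (norm_nonneg _).trans (hM 0 0)
  rw [Matrix.mul_apply, Fin.sum_univ_two]
  refine (norm_add_le _ _).trans ?_
  rw [norm_mul, norm_mul]
  have h1 : ‖M i 0‖ * ‖N 0 j‖ ≤ C * C' := mul_le_mul (hM i 0) (hN 0 j) (norm_nonneg _) hC
  have h2 : ‖M i 1‖ * ‖N 1 j‖ ≤ C * C' := mul_le_mul (hM i 1) (hN 1 j) (norm_nonneg _) hC
  linarith

lemma EB.adj {M : Matrix (Fin 2) (Fin 2) ℂ} {C : ℝ} (hM : EB M C) : EB M.adjugate C := by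
  rw [Matrix.adjugate_fin_two]
  intro i j
  fin_cases i <;> fin_cases j <;> simp [hM _ _]

lemma finite_gauss (B : ℝ) : {n : GaussianInt | ‖(n : ℂ)‖ ≤ B}.Finite := by
  have hinj : Function.Injective (fun n : GaussianInt => (n.re, n.im)) := by
    intro a b h
    simp only [Prod.mk.injEq] at h
    exact Zsqrtd.ext h.1 h.2
  refine Set.Finite.subset (Set.Finite.preimage hinj.injOn
    ((Set.finite_Icc (-⌈B⌉) ⌈B⌉).prod (Set.finite_Icc (-⌈B⌉) ⌈B⌉))) ?_
  intro n hn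
  have hn' : ‖(n : ℂ)‖ ≤ B := hn
  have h1 : |((n.re : ℤ) : ℝ)| ≤ B := by
    have := Complex.abs_re_le_norm (n : ℂ)
    rw [← GaussianInt.intCast_re] at this
    exact this.trans hn'
  have h2 : |((n.im : ℤ) : ℝ)| ≤ B := by
    have := Complex.abs_im_le_norm (n : ℂ)
    rw [← GaussianInt.intCast_im] at this
    exact this.trans hn'
  have hB := Int.le_ceil B
  rw [abs_le] at h1 h2
  simp only [Set.mem_preimage, Set.mem_prod, Set.mem_Icc]
  refine ⟨⟨?_, ?_⟩, ⟨?_, ?_⟩⟩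
  · have : (-(⌈B⌉ : ℤ) : ℝ) ≤ n.re := by linarith [h1.1]
    exact_mod_cast this
  · have : (n.re : ℝ) ≤ ⌈B⌉ := by linarith [h1.2]
    exact_mod_cast this
  · have : (-(⌈B⌉ : ℤ) : ℝ) ≤ n.im := by linarith [h2.1]
    exact_mod_cast this
  · have : (n.im : ℝ) ≤ ⌈B⌉ := by linarith [h2.2]
    exact_mod_cast this

/-- class of a vector: determinant and residues modulo three times its norm -/
def cls (v : Fin 4 → GaussianInt) : GaussianInt × (Fin 4 → ℤ × ℤ) :=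
  (gdet v, fun i => ((v i).re % (3 * (gdet v).norm), (v i).im % (3 * (gdet v).norm)))

lemma exists_of_cls {v w : Fin 4 → GaussianInt} (hv : v ≠ 0) (h : cls v = cls w) :
    ∃ g ∈ Lam, qm (gv w) = (g : Matrix (Fin 2) (Fin 2) ℂ) * qm (gv v) := by
  have h1 : gdet v = gdet w := congrArg Prod.fst h
  have h2 := congrArg Prod.snd h
  simp only [cls] at h2
  have hz : ∀ i, ∃ z : GaussianInt, w i = v i + 3 * (star (gdet v) * gdet v) * z := by
    intro i
    have h3 := congrFun h2 i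
    simp only [Prod.mk.injEq, ← h1] at h3
    obtain ⟨a, ha⟩ := Int.ModEq.dvd (h3.1 : (v i).re ≡ (w i).re [ZMOD _])
    obtain ⟨b, hb⟩ := Int.ModEq.dvd (h3.2 : (v i).im ≡ (w i).im [ZMOD _])
    refine ⟨⟨a, b⟩, ?_⟩
    have hn : star (gdet v) * gdet v = ((gdet v).norm : GaussianInt) := by
      rw [Zsqrtd.norm_eq_mul_conj, mul_comm]
    rw [hn]
    ext
    · simp [Zsqrtd.re_mul]
      linarith
    · simp [Zsqrtd.im_mul]
      linarith
  choose z hz using hz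
  exact exists_Lam_of_congr h1 hv hz

lemma norm_pos_of_ne {v : Fin 4 → GaussianInt} (hv : v ≠ 0) : 0 < (gdet v).norm :=
  lt_of_le_of_ne (GaussianInt.norm_nonneg _)
    (fun h => gdet_ne_zero hv (GaussianInt.norm_eq_zero.1 h.symm))

lemma finite_cls (B : ℝ) :
    (cls '' {v | v ≠ 0 ∧ ‖((gdet v : GaussianInt) : ℂ)‖ ≤ B}).Finite := by
  have hfin := finite_gauss B
  -- a bound for the norm
  obtain ⟨K, hK⟩ : ∃ K : ℤ, ∀ n ∈ {n : GaussianInt | ‖(n : ℂ)‖ ≤ B}, n.norm ≤ K := by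
    obtain ⟨K, hK⟩ := (hfin.image Zsqrtd.norm).bddAbove
    exact ⟨K, fun n hn => hK ⟨n, hn, rfl⟩⟩
  refine Set.Finite.subset (hfin.prod (Set.Finite.pi (fun _ : Fin 4 =>
    (Set.finite_Icc (0 : ℤ) (3 * K)).prod (Set.finite_Icc (0 : ℤ) (3 * K))))) ?_
  rintro _ ⟨v, ⟨hv0, hv⟩, rfl⟩
  have hn := norm_pos_of_ne hv0
  have hnK : (gdet v).norm ≤ K := hK _ hv
  refine ⟨hv, ?_⟩
  intro i _
  simp only [cls, Set.mem_prod, Set.mem_Icc]
  have e1 := Int.emod_nonneg (v i).re (show 3 * (gdet v).norm ≠ 0 by omega)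
  have e2 := Int.emod_lt_of_pos (v i).re (show 0 < 3 * (gdet v).norm by omega)
  have e3 := Int.emod_nonneg (v i).im (show 3 * (gdet v).norm ≠ 0 by omega)
  have e4 := Int.emod_lt_of_pos (v i).im (show 0 < 3 * (gdet v).norm by omega)
  refine ⟨⟨e1, by linarith⟩, ⟨e3, by linarith⟩⟩

/-- Cocompactness, in terms of entrywise bounds. -/
theorem cocompact : ∃ C : ℝ, 0 < C ∧ ∀ h : SpecialLinearGroup (Fin 2) ℂ, ∃ γ ∈ Lam,
    EB ((γ * h : SpecialLinearGroup (Fin 2) ℂ) : Matrix (Fin 2) (Fin 2) ℂ) C := by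
  obtain ⟨R, hR0, hR⟩ := minkowski
  -- the finitely many classes
  set W : Set (Fin 4 → GaussianInt) := {v | v ≠ 0 ∧ ‖((gdet v : GaussianInt) : ℂ)‖ ≤ 2 * R * R}
    with hW
  have hfin : (cls '' W).Finite := finite_cls _
  -- choose representatives
  have hrep : ∀ y : cls '' W, ∃ v ∈ W, cls v = y := fun y => y.2
  choose rep hrepW hrepc using hrep
  obtain ⟨C0, hC0⟩ : ∃ C0 : ℝ, ∀ y : cls '' W, EB (qm (gv (rep y)))⁻¹ C0 := by
    have : Finite (cls '' W) := hfin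
    obtain ⟨C0, hC0⟩ := (Set.finite_range (fun p : (cls '' W) × (Fin 2 × Fin 2) =>
      ‖(qm (gv (rep p.1)))⁻¹ p.2.1 p.2.2‖)).bddAbove
    exact ⟨C0, fun y i j => hC0 ⟨(y, (i, j)), rfl⟩⟩
  have key : ∀ g : SpecialLinearGroup (Fin 2) ℂ, ∃ γ ∈ Lam,
      EB ((g : Matrix (Fin 2) (Fin 2) ℂ) * (γ : Matrix (Fin 2) (Fin 2) ℂ)) (2 * R * C0) := by
    intro g
    obtain ⟨v, hv0, hv⟩ := hR g
    rw [Tg_apply] at hv
    have hM : EB ((g : Matrix (Fin 2) (Fin 2) ℂ) * qm (gv v)) R := by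
      intro i j
      have h1 := (norm_le_pi_norm (flat ((g : Matrix (Fin 2) (Fin 2) ℂ) * qm (gv v))))
      fin_cases i <;> fin_cases j
      · exact (h1 0).trans hv
      · exact (h1 2).trans hv
      · exact (h1 1).trans hv
      · exact (h1 3).trans hv
    have hdet : ‖((gdet v : GaussianInt) : ℂ)‖ ≤ 2 * R * R := by
      have h2 : (g : Matrix (Fin 2) (Fin 2) ℂ).det = 1 := g.2
      have h3 : ((g : Matrix (Fin 2) (Fin 2) ℂ) * qm (gv v)).det = ((gdet v : GaussianInt) : ℂ) := by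
        rw [Matrix.det_mul, h2, one_mul, det_gv]
      rw [← h3, Matrix.det_fin_two]
      refine (norm_sub_le _ _).trans ?_
      rw [norm_mul, norm_mul]
      have h4 := mul_le_mul (hM 0 0) (hM 1 1) (norm_nonneg _) hR0.le
      have h5 := mul_le_mul (hM 0 1) (hM 1 0) (norm_nonneg _) hR0.le
      linarith
    have hvW : v ∈ W := ⟨hv0, hdet⟩
    set y : cls '' W := ⟨cls v, v, hvW, rfl⟩ with hy
    obtain ⟨γ, hγ, hγe⟩ := exists_of_cls (hrepW y).1 ((hrepc y).trans rfl : cls (rep y) = cls v)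
    refine ⟨γ, hγ, ?_⟩
    have hunit : IsUnit (qm (gv (rep y))).det := by
      rw [det_gv, isUnit_iff_ne_zero]
      intro h
      exact gdet_ne_zero (hrepW y).1 (GaussianInt.toComplex_eq_zero.1 h)
    have h6 : (g : Matrix (Fin 2) (Fin 2) ℂ) * (γ : Matrix (Fin 2) (Fin 2) ℂ) =
        ((g : Matrix (Fin 2) (Fin 2) ℂ) * qm (gv v)) * (qm (gv (rep y)))⁻¹ := by
      rw [hγe, mul_assoc, mul_assoc, Matrix.mul_nonsing_inv _ hunit, mul_one]
    rw [h6]
    exact hM.mul (hC0 y)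
  refine ⟨max (2 * R * C0) 1, by positivity, fun h => ?_⟩
  obtain ⟨γ, hγ, hb⟩ := key h⁻¹
  refine ⟨γ⁻¹, Lam.inv_mem hγ, ?_⟩
  have h7 : ((γ⁻¹ * h : SpecialLinearGroup (Fin 2) ℂ) : Matrix (Fin 2) (Fin 2) ℂ) =
      (((h⁻¹ * γ : SpecialLinearGroup (Fin 2) ℂ)) : Matrix (Fin 2) (Fin 2) ℂ).adjugate := by
    have : γ⁻¹ * h = (h⁻¹ * γ)⁻¹ := by group
    rw [this]
    rfl
  rw [h7]
  exact (EB.adj hb).mono (le_max_left _ _)

lemma norm_sI : ‖sI‖ = 1 := by
  have h := congrArg norm sI_sq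
  rw [norm_mul, Complex.norm_I] at h
  nlinarith [norm_nonneg sI]

lemma one_le_norm_bI : 1 ≤ ‖bI‖ := by
  have h := Complex.abs_re_le_norm bI
  simp [bI] at h
  linarith [h, show ‖bI‖ = ‖(2 : ℂ) + Complex.I‖ from rfl]

lemma bound_coords {v : Fin 4 → ℂ} {C : ℝ} (h : EB (qm v) C) : ∀ i, ‖v i‖ ≤ C := by
  have h00 := h 0 0
  have h01 := h 0 1
  have h10 := h 1 0
  have h11 := h 1 1
  simp only [qm, Matrix.of_apply, Matrix.cons_val', Matrix.cons_val_zero, Matrix.cons_val_one,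
    Matrix.cons_val_fin_one] at h00 h01 h10 h11
  have h01' : ‖v 2 + v 3 * sI‖ ≤ C := by
    rw [norm_mul] at h01
    nlinarith [norm_nonneg (v 2 + v 3 * sI), one_le_norm_bI]
  intro i
  fin_cases i
  · have : v 0 + v 0 = (v 0 + v 1 * sI) + (v 0 - v 1 * sI) := by ring
    have h2 : ‖v 0 + v 0‖ ≤ C + C := by
      rw [this]; exact (norm_add_le _ _).trans (add_le_add h00 h11)
    rw [← two_mul, norm_mul, Complex.norm_ofNat] at h2
    simpa using (by linarith : ‖v 0‖ ≤ C)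
  · have : (v 1 + v 1) * sI = (v 0 + v 1 * sI) - (v 0 - v 1 * sI) := by ring
    have h2 : ‖(v 1 + v 1) * sI‖ ≤ C + C := by
      rw [this]; exact (norm_sub_le _ _).trans (add_le_add h00 h11)
    rw [← two_mul, norm_mul, norm_mul, norm_sI, Complex.norm_ofNat] at h2
    simpa using (by linarith : ‖v 1‖ ≤ C)
  · have : v 2 + v 2 = (v 2 + v 3 * sI) + (v 2 - v 3 * sI) := by ring
    have h2 : ‖v 2 + v 2‖ ≤ C + C := by
      rw [this]; exact (norm_add_le _ _).trans (add_le_add h01' h10)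
    rw [← two_mul, norm_mul, Complex.norm_ofNat] at h2
    simpa using (by linarith : ‖v 2‖ ≤ C)
  · have : (v 3 + v 3) * sI = (v 2 + v 3 * sI) - (v 2 - v 3 * sI) := by ring
    have h2 : ‖(v 3 + v 3) * sI‖ ≤ C + C := by
      rw [this]; exact (norm_sub_le _ _).trans (add_le_add h01' h10)
    rw [← two_mul, norm_mul, norm_mul, norm_sI, Complex.norm_ofNat] at h2
    simpa using (by linarith : ‖v 3‖ ≤ C)

/-- Discreteness: only finitely many elements with bounded entries. -/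
theorem discrete (C : ℝ) :
    {γ : SpecialLinearGroup (Fin 2) ℂ | γ ∈ Lam ∧ EB (γ : Matrix (Fin 2) (Fin 2) ℂ) C}.Finite := by
  classical
  let f : (Fin 4 → GaussianInt) → SpecialLinearGroup (Fin 2) ℂ := fun v =>
    if h : (1 + (3 : ℂ) • qm (gv v)).det = 1 then ⟨_, h⟩ else 1
  refine Set.Finite.subset (Set.Finite.image f
    (Set.Finite.pi (fun _ : Fin 4 => finite_gauss (C + 1)))) ?_
  rintro γ ⟨⟨v, hv⟩, hb⟩
  refine ⟨v, ?_, ?_⟩
  · intro i _
    have h1 : EB (qm (gv v)) (C + 1) := by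
      intro i j
      have h2 : (γ : Matrix (Fin 2) (Fin 2) ℂ) i j = (1 : Matrix (Fin 2) (Fin 2) ℂ) i j +
          3 * qm (gv v) i j := by
        rw [hv]; simp
      have h3 : 3 * qm (gv v) i j = (γ : Matrix (Fin 2) (Fin 2) ℂ) i j -
          (1 : Matrix (Fin 2) (Fin 2) ℂ) i j := by
        rw [h2]; ring
      have h4 : ‖3 * qm (gv v) i j‖ ≤ C + 1 := by
        rw [h3]
        refine (norm_sub_le _ _).trans (add_le_add (hb i j) ?_)
        fin_cases i <;> fin_cases j <;> simp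
      rw [norm_mul, Complex.norm_ofNat] at h4
      linarith [norm_nonneg (qm (gv v) i j)]
    exact bound_coords h1 i
  · have h5 : (1 + (3 : ℂ) • qm (gv v)).det = 1 := by rw [← hv]; exact γ.2
    have h6 : f v = ⟨_, h5⟩ := dif_pos h5
    rw [h6]
    exact Subtype.ext hv.symm

end Pool.Agent.J6H37.Twistor
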