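import Mathlib

/-!
# Definitions: domains of `ℂℙ³` covering compact complex threefolds, CR dimension

These are the definitions used in the hand-in `MP_17cb1b_an`.
-/

namespace Pool.Agent.J6H37.Twistor

open Matrix
open scoped ContDiff

/-- Complex projective `3`-space `ℂℙ³`, the space of lines of `ℂ⁴`. -/
abbrev CP3 : Type := Projectivization ℂ (Fin 4 → ℂ)

/-- The usual topology of `ℂℙ³`: the quotient topology of `ℂ⁴ ∖ {0}`. -/
noncomputable instance instTopologicalSpaceCP3 : TopologicalSpace CP3 :=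
  TopologicalSpace.coinduced (Projectivization.mk' ℂ) inferInstance

/-- `D` is a domain (nonempty connected open set) of `ℂℙ³` and `Γ` is a group of projective
linear transformations mapping `D` to itself, which acts freely and properly discontinuously on
`D` with compact quotient `D / Γ`. In particular `Γ` is a subgroup of `Aut(D)` (the action is
free, so it is faithful) and `D` covers the compact complex threefold `D / Γ`. -/
structure CoversCompactThreefold (D : Set CP3) (Γ : Subgroup (GL (Fin 4) ℂ)) : Prop where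
  /-- `D` is open. -/
  isOpen : IsOpen D
  /-- `D` is nonempty and connected. -/
  isConnected : IsConnected D
  /-- `Γ` acts on `D` (by restriction of projective transformations). -/
  maps : ∀ γ ∈ Γ, ∀ x ∈ D, γ • x ∈ D
  /-- The action on `D` is free. -/
  free : ∀ γ ∈ Γ, ∀ x ∈ D, γ • x = x → γ = 1
  /-- The action on `D` is properly discontinuous. -/
  properlyDiscontinuous : ∀ K ⊆ D, IsCompact K → {γ | γ ∈ Γ ∧ ∃ x ∈ K, γ • x ∈ K}.Finite
  /-- The quotient `D / Γ` is compact. -/
  cocompact : ∃ K ⊆ D, IsCompact K ∧ ∀ x ∈ D, ∃ γ ∈ Γ, γ • x ∈ K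

lemma insertNth_one_ne_zero (i : Fin 4) (z : Fin 3 → ℂ) :
    (i.insertNth (1 : ℂ) z : Fin 4 → ℂ) ≠ 0 := by
  intro h
  have := congrFun h i
  simp at this

/-- The `i`-th affine chart `ℂ³ → ℂℙ³` (`i = 0, 1, 2, 3`): `z ↦ [z₀ : ... : 1 : ... : z₂]` with
the `1` inserted at position `i`. -/
noncomputable def chart (i : Fin 4) (z : Fin 3 → ℂ) : CP3 :=
  Projectivization.mk ℂ (i.insertNth (1 : ℂ) z) (insertNth_one_ne_zero i z)

/-- Near the point `z ∈ ℂ³ = ℝ⁶`, the set `S` is an embedded `C^∞` submanifold of real dimension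
four through `z`, with tangent space `T` at `z`: on an open neighbourhood `U` of `z` it is the
zero set of a `C^∞` map `F` to `ℂ = ℝ²` vanishing at `z`, whose real derivative is surjective at
every point of `S ∩ U`, and `T` is the kernel of the derivative at `z`. -/
def HasTangentSpace (S : Set (Fin 3 → ℂ)) (z : Fin 3 → ℂ) (T : Submodule ℝ (Fin 3 → ℂ)) : Prop :=
  ∃ (U : Set (Fin 3 → ℂ)) (F : (Fin 3 → ℂ) → ℂ), IsOpen U ∧ z ∈ U ∧ ContDiff ℝ ∞ F ∧ F z = 0 ∧
    S ∩ U = {y | F y = 0} ∩ U ∧ (∀ y ∈ S ∩ U, Function.Surjective (fderiv ℝ F y)) ∧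
    T = (fderiv ℝ F z).ker

/-- `Λ` is a (locally closed, without boundary) embedded `C^∞` submanifold of `ℂℙ³` of real
dimension four. -/
def IsSmoothRealFour (Λ : Set CP3) : Prop :=
  ∀ (i : Fin 4) (z : Fin 3 → ℂ), chart i z ∈ Λ → ∃ T, HasTangentSpace (chart i ⁻¹' Λ) z T

/-- The largest complex subspace `T ∩ iT` of a real subspace `T` of `ℂ³`. -/
def complexPart (T : Submodule ℝ (Fin 3 → ℂ)) : Submodule ℂ (Fin 3 → ℂ) where
  carrier := {h | h ∈ T ∧ Complex.I • h ∈ T}
  add_mem' := by
    rintro a b ⟨ha, ha'⟩ ⟨hb, hb'⟩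
    exact ⟨T.add_mem ha hb, by rw [smul_add]; exact T.add_mem ha' hb'⟩
  zero_mem' := ⟨T.zero_mem, by rw [smul_zero]; exact T.zero_mem⟩
  smul_mem' := by
    rintro c h ⟨h1, h2⟩
    have e1 : c • h = c.re • h + c.im • (Complex.I • h) := by
      funext j
      simp only [Pi.smul_apply, Pi.add_apply, smul_eq_mul, Complex.real_smul]
      conv_lhs => rw [← Complex.re_add_im c]
      ring
    have e2 : Complex.I • (c • h) = c.re • (Complex.I • h) + (-c.im) • h := by
      funext j
      simp only [Pi.smul_apply, Pi.add_apply, smul_eq_mul, Complex.real_smul]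
      conv_lhs => rw [← Complex.re_add_im c]
      push_cast
      linear_combination (c.im : ℂ) * h j * Complex.I_mul_I
    exact ⟨by rw [e1]; exact T.add_mem (T.smul_mem _ h1) (T.smul_mem _ h2),
      by rw [e2]; exact T.add_mem (T.smul_mem _ h2) (T.smul_mem _ h1)⟩

/-- `Λ` is near `p ∈ ℂℙ³` an embedded `C^∞` submanifold of real dimension four through `p`, and
its CR dimension at `p`, the complex dimension of `T_pΛ ∩ i T_pΛ`, is `d` (computed in an affine
chart). -/
def HasCRDim (Λ : Set CP3) (p : CP3) (d : ℕ) : Prop :=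
  ∃ (i : Fin 4) (z : Fin 3 → ℂ) (T : Submodule ℝ (Fin 3 → ℂ)), chart i z = p ∧
    HasTangentSpace (chart i ⁻¹' Λ) z T ∧ Module.finrank ℂ (complexPart T) = d

end Pool.Agent.J6H37.Twistor
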