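import Mathlib
import Pool.Agent.J6H37.Twistor.Defs
import Pool.Agent.J6H37.Twistor.Cocompact

/-!
# The twistor domain
-/

namespace Pool.Agent.J6H37.Twistor

open Matrix ComplexConjugate

/-- the function whose zero set is the complement of the domain -/
noncomputable def del (v : Fin 4 → ℂ) : ℂ := v 0 * conj (v 3) - v 1 * conj (v 2)

lemma del_smul (c : ℂ) (v : Fin 4 → ℂ) : del (c • v) = (c * conj c) * del v := by
  simp [del]; ring

lemma continuous_del : Continuous del := by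
  unfold del
  fun_prop

/-- the domain -/
noncomputable def Dom : Set CP3 := {p | del p.rep ≠ 0}

lemma mk_mem_Dom {v : Fin 4 → ℂ} (hv : v ≠ 0) : Projectivization.mk ℂ v hv ∈ Dom ↔ del v ≠ 0 := by
  obtain ⟨a, ha⟩ := Projectivization.exists_smul_eq_mk_rep ℂ v hv
  have ha0 : (a : ℂ) ≠ 0 := a.ne_zero
  have h1 : del ((Projectivization.mk ℂ v hv).rep) = ((a : ℂ) * conj (a : ℂ)) * del v := by
    rw [← ha, Units.smul_def, del_smul]
  have h2 : (a : ℂ) * conj (a : ℂ) ≠ 0 := by simp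
  constructor
  · intro h h0
    apply h
    rw [h1, h0, mul_zero]
  · intro h
    change del _ ≠ 0
    rw [h1]
    exact mul_ne_zero h2 h

lemma continuous_mk' : Continuous (Projectivization.mk' ℂ : {v : Fin 4 → ℂ // v ≠ 0} → CP3) :=
  continuous_coinduced_rng

lemma isOpen_iff_CP3 {s : Set CP3} : IsOpen s ↔ IsOpen (Projectivization.mk' ℂ ⁻¹' s) :=
  isOpen_coinduced

/-- A positively homogeneous strict inequality defines an open set. -/
lemma isOpen_setOf {P : (Fin 4 → ℂ) → Prop} (hP : IsOpen {v | P v})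
    {s : Set CP3} (hs : ∀ v hv, Projectivization.mk ℂ v hv ∈ s ↔ P v) : IsOpen s := by
  rw [isOpen_iff_CP3]
  have : (Projectivization.mk' ℂ ⁻¹' s : Set {v : Fin 4 → ℂ // v ≠ 0}) =
      Subtype.val ⁻¹' {v | P v} := by
    ext ⟨v, hv⟩
    exact hs v hv
  rw [this]
  exact hP.preimage continuous_subtype_val

lemma isOpen_Dom : IsOpen Dom := by
  refine isOpen_setOf (P := fun v => del v ≠ 0) ?_ (fun v hv => mk_mem_Dom hv)
  exact isOpen_ne_fun continuous_del continuous_const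

/-- The action of `SL(2, ℂ)` on `ℂ⁴ = ℂ² ⊕ ℂ²`: `(u, w) ↦ (g u, conj(g) w)`. -/
noncomputable def rhoM (g : Matrix (Fin 2) (Fin 2) ℂ) : Matrix (Fin 4) (Fin 4) ℂ :=
  !![g 0 0, g 0 1, 0, 0; g 1 0, g 1 1, 0, 0; 0, 0, conj (g 0 0), conj (g 0 1);
    0, 0, conj (g 1 0), conj (g 1 1)]

lemma rhoM_mul (g h : Matrix (Fin 2) (Fin 2) ℂ) : rhoM (g * h) = rhoM g * rhoM h := by
  ext i j
  fin_cases i <;> fin_cases j <;>
    simp [rhoM, Matrix.mul_apply, Fin.sum_univ_two, Fin.sum_univ_four]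

lemma rhoM_one : rhoM 1 = 1 := by
  ext i j
  fin_cases i <;> fin_cases j <;> simp [rhoM]

/-- the homomorphism `SL(2, ℂ) → GL(4, ℂ)` -/
noncomputable def rho : SpecialLinearGroup (Fin 2) ℂ →* GL (Fin 4) ℂ :=
  MonoidHom.toHomUnits
    { toFun := fun g => rhoM (g : Matrix (Fin 2) (Fin 2) ℂ)
      map_one' := rhoM_one
      map_mul' := fun _ _ => rhoM_mul _ _ }

lemma rho_coe (g : SpecialLinearGroup (Fin 2) ℂ) :
    ((rho g : GL (Fin 4) ℂ) : Matrix (Fin 4) (Fin 4) ℂ) = rhoM (g : Matrix (Fin 2) (Fin 2) ℂ) := rfl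

lemma rho_smul (g : SpecialLinearGroup (Fin 2) ℂ) (v : Fin 4 → ℂ) :
    rho g • v = rhoM (g : Matrix (Fin 2) (Fin 2) ℂ) *ᵥ v := rfl

lemma rhoM_mulVec (g : Matrix (Fin 2) (Fin 2) ℂ) (v : Fin 4 → ℂ) :
    rhoM g *ᵥ v = ![g 0 0 * v 0 + g 0 1 * v 1, g 1 0 * v 0 + g 1 1 * v 1,
      conj (g 0 0) * v 2 + conj (g 0 1) * v 3, conj (g 1 0) * v 2 + conj (g 1 1) * v 3] := by
  funext i
  fin_cases i <;> simp [rhoM, Matrix.mulVec, dotProduct, Fin.sum_univ_four]

lemma del_rhoM (g : Matrix (Fin 2) (Fin 2) ℂ) (v : Fin 4 → ℂ) :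
    del (rhoM g *ᵥ v) = g.det * del v := by
  rw [rhoM_mulVec, Matrix.det_fin_two]
  simp [del]
  ring

lemma del_rho (g : SpecialLinearGroup (Fin 2) ℂ) (v : Fin 4 → ℂ) :
    del (rhoM (g : Matrix (Fin 2) (Fin 2) ℂ) *ᵥ v) = del v := by
  have h2 : (g : Matrix (Fin 2) (Fin 2) ℂ).det = 1 := g.2
  rw [del_rhoM, h2, one_mul]

/-- The group acting on the domain. -/
noncomputable def Gam : Subgroup (GL (Fin 4) ℂ) := Lam.map rho

lemma maps_Dom : ∀ γ ∈ Gam, ∀ x ∈ Dom, γ • x ∈ Dom := by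
  rintro _ ⟨g, hg, rfl⟩ x hx
  induction x using Projectivization.ind with
  | h v hv =>
    rw [Projectivization.smul_mk, mk_mem_Dom]
    change del (rhoM (g : Matrix (Fin 2) (Fin 2) ℂ) *ᵥ v) ≠ 0
    rw [del_rho]
    exact (mk_mem_Dom hv).1 hx

/-- the key algebraic lemma for freeness -/
lemma eq_one_of_fix {g : SpecialLinearGroup (Fin 2) ℂ} (hg : g ∈ Lam) {v : Fin 4 → ℂ}
    (hd : del v ≠ 0) {a : ℂ} (h : rhoM (g : Matrix (Fin 2) (Fin 2) ℂ) *ᵥ v = a • v) : g = 1 := by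
  have hdet : (g : Matrix (Fin 2) (Fin 2) ℂ).det = 1 := g.2
  set M : Matrix (Fin 2) (Fin 2) ℂ := (g : Matrix (Fin 2) (Fin 2) ℂ) with hM
  rw [rhoM_mulVec] at h
  have e0 : M 0 0 * v 0 + M 0 1 * v 1 = a * v 0 := by simpa using congrFun h 0
  have e1 : M 1 0 * v 0 + M 1 1 * v 1 = a * v 1 := by simpa using congrFun h 1
  have e2 : conj (M 0 0) * v 2 + conj (M 0 1) * v 3 = a * v 2 := by simpa using congrFun h 2
  have e3 : conj (M 1 0) * v 2 + conj (M 1 1) * v 3 = a * v 3 := by simpa using congrFun h 3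
  have e2' : M 0 0 * conj (v 2) + M 0 1 * conj (v 3) = conj a * conj (v 2) := by
    have := congrArg conj e2; simpa using this
  have e3' : M 1 0 * conj (v 2) + M 1 1 * conj (v 3) = conj a * conj (v 3) := by
    have := congrArg conj e3; simpa using this
  -- norm of `a`
  have hnorm : a * conj a = 1 := by
    have h1 := del_rhoM M v
    have h2 : rhoM M *ᵥ v = a • v := by rw [rhoM_mulVec, h]
    rw [h2, del_smul, hdet, one_mul] at h1
    exact mul_right_cancel₀ hd (by rw [h1, one_mul])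
  -- trace
  have htr : M 0 0 + M 1 1 = a + conj a := by
    apply mul_right_cancel₀ hd
    simp only [del]
    linear_combination conj (v 3) * e0 - v 1 * e2' + v 0 * e3' - conj (v 2) * e1
  obtain ⟨w, hw⟩ := hg
  have hM00 : M 0 0 = 1 + 3 * qm (gv w) 0 0 := by rw [hM, hw]; simp
  have hM11 : M 1 1 = 1 + 3 * qm (gv w) 1 1 := by rw [hM, hw]; simp
  have htr2 : M 0 0 + M 1 1 = 2 + 6 * (w 0 : ℂ) := by
    rw [hM00, hM11]
    simp [qm, gv]
    ring
  have hre : 2 * a.re = 2 + 6 * ((w 0).re : ℝ) := by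
    have h5 := congrArg Complex.re (htr.symm.trans htr2)
    simp [← GaussianInt.intCast_re] at h5
    linarith
  have hns : a.re * a.re + a.im * a.im = 1 := by
    have h5 := congrArg Complex.re hnorm
    simp at h5
    exact h5
  have hk : (w 0).re = 0 := by
    have h6 : a.re ≤ 1 := by nlinarith
    have h7 : -1 ≤ a.re := by nlinarith
    have h8 : ((w 0).re : ℝ) ≤ 0 := by linarith
    have h9 : (-1 : ℝ) < ((w 0).re : ℝ) := by linarith
    have h8' : (w 0).re ≤ 0 := by exact_mod_cast h8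
    have h9' : -1 < (w 0).re := by exact_mod_cast h9
    omega
  have ha : a = 1 := by
    have h10 : a.re = 1 := by rw [hk] at hre; simpa using hre
    have h11 : a.im = 0 := by
      rw [h10] at hns
      nlinarith
    exact Complex.ext (by simp [h10]) (by simp [h11])
  subst ha
  simp only [map_one, one_mul] at e0 e1 e2' e3'
  have f00 : M 0 0 = 1 := by
    apply mul_right_cancel₀ hd
    simp only [del]
    linear_combination conj (v 3) * e0 - v 1 * e2'
  have f01 : M 0 1 = 0 := by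
    apply mul_right_cancel₀ hd
    simp only [del]
    linear_combination v 0 * e2' - conj (v 2) * e0
  have f10 : M 1 0 = 0 := by
    apply mul_right_cancel₀ hd
    simp only [del]
    linear_combination conj (v 3) * e1 - v 1 * e3'
  have f11 : M 1 1 = 1 := by
    apply mul_right_cancel₀ hd
    simp only [del]
    linear_combination v 0 * e3' - conj (v 2) * e1
  ext i j
  fin_cases i <;> fin_cases j <;> simp
  · exact f00
  · exact f01
  · exact f10
  · exact f11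

lemma free_Dom : ∀ γ ∈ Gam, ∀ x ∈ Dom, γ • x = x → γ = 1 := by
  rintro _ ⟨g, hg, rfl⟩ x hx hfix
  induction x using Projectivization.ind with
  | h v hv =>
    rw [Projectivization.smul_mk, Projectivization.mk_eq_mk_iff'] at hfix
    obtain ⟨a, ha⟩ := hfix
    have : g = 1 := eq_one_of_fix hg ((mk_mem_Dom hv).1 hx) (a := a) ha.symm
    rw [this, map_one]

/-- squared norm -/
noncomputable def nsq (v : Fin 4 → ℂ) : ℝ := ‖v 0‖ ^ 2 + ‖v 1‖ ^ 2 + ‖v 2‖ ^ 2 + ‖v 3‖ ^ 2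

lemma continuous_nsq : Continuous nsq := by
  unfold nsq
  fun_prop

lemma nsq_smul (c : ℂ) (v : Fin 4 → ℂ) : nsq (c • v) = ‖c‖ ^ 2 * nsq v := by
  simp [nsq]; ring

lemma norm_del_smul (c : ℂ) (v : Fin 4 → ℂ) : ‖del (c • v)‖ = ‖c‖ ^ 2 * ‖del v‖ := by
  rw [del_smul, norm_mul, norm_mul, RCLike.norm_conj]; ring

lemma nsq_pos {v : Fin 4 → ℂ} (hv : v ≠ 0) : 0 < nsq v := by
  have h0 : 0 ≤ nsq v := by unfold nsq; positivity
  refine lt_of_le_of_ne h0 (fun h => hv ?_)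
  unfold nsq at h
  have a0 := sq_nonneg ‖v 0‖
  have a1 := sq_nonneg ‖v 1‖
  have a2 := sq_nonneg ‖v 2‖
  have a3 := sq_nonneg ‖v 3‖
  funext i
  fin_cases i
  · simpa using (by nlinarith : ‖v 0‖ ^ 2 = 0)
  · simpa using (by nlinarith : ‖v 1‖ ^ 2 = 0)
  · simpa using (by nlinarith : ‖v 2‖ ^ 2 = 0)
  · simpa using (by nlinarith : ‖v 3‖ ^ 2 = 0)

lemma norm_le_of_nsq {v : Fin 4 → ℂ} {C : ℝ} (h : nsq v ≤ C ^ 2) (hC : 0 ≤ C) (i : Fin 4) :
    ‖v i‖ ≤ C := by
  unfold nsq at h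
  have a0 := sq_nonneg ‖v 0‖
  have a1 := sq_nonneg ‖v 1‖
  have a2 := sq_nonneg ‖v 2‖
  have a3 := sq_nonneg ‖v 3‖
  apply le_of_sq_le_sq _ hC
  fin_cases i <;> simp <;> nlinarith

/-- exhausting open sets -/
noncomputable def Dn (n : ℕ) : Set CP3 := {p | nsq p.rep < n * ‖del p.rep‖}

lemma mk_mem_Dn {n : ℕ} {v : Fin 4 → ℂ} (hv : v ≠ 0) :
    Projectivization.mk ℂ v hv ∈ Dn n ↔ nsq v < n * ‖del v‖ := by
  obtain ⟨a, ha⟩ := Projectivization.exists_smul_eq_mk_rep ℂ v hv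
  have ha0 : (a : ℂ) ≠ 0 := a.ne_zero
  have hpos : 0 < ‖(a : ℂ)‖ ^ 2 := by positivity
  change nsq _ < n * ‖del _‖ ↔ _
  rw [← ha, Units.smul_def, nsq_smul, norm_del_smul]
  constructor
  · intro h
    by_contra h'
    push Not at h'
    nlinarith [mul_le_mul_of_nonneg_left h' hpos.le]
  · intro h
    nlinarith [mul_lt_mul_of_pos_left h hpos]

lemma isOpen_Dn (n : ℕ) : IsOpen (Dn n) := by
  refine isOpen_setOf (P := fun v => nsq v < n * ‖del v‖) ?_ (fun v hv => mk_mem_Dn hv)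
  exact isOpen_lt continuous_nsq (continuous_const.mul continuous_del.norm)

lemma Dom_subset : Dom ⊆ ⋃ n, Dn n := by
  intro x hx
  induction x using Projectivization.ind with
  | h v hv =>
    have hd := norm_pos_iff.2 ((mk_mem_Dom hv).1 hx)
    obtain ⟨n, hn⟩ := exists_nat_gt (nsq v / ‖del v‖)
    rw [Set.mem_iUnion]
    exact ⟨n, (mk_mem_Dn hv).2 (by rwa [div_lt_iff₀ hd] at hn)⟩

lemma Dn_mono : Monotone Dn := by
  intro m n hmn x hx
  induction x using Projectivization.ind with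
  | h v hv =>
    rw [mk_mem_Dn] at hx ⊢
    have : (m : ℝ) ≤ n := by exact_mod_cast hmn
    exact hx.trans_le (mul_le_mul_of_nonneg_right this (norm_nonneg _))

/-- Bound of the group element in terms of vectors. -/
lemma EB_of_bounds {M : Matrix (Fin 2) (Fin 2) ℂ} {v : Fin 4 → ℂ} {n : ℝ} (hn : 0 < n)
    (hd : del v ≠ 0) (h1 : nsq v ≤ n * ‖del v‖) (h2 : nsq (rhoM M *ᵥ v) ≤ n * ‖del v‖) :
    EB M (2 * n) := by
  have hdp := norm_pos_iff.2 hd
  set t : ℝ := Real.sqrt (n * ‖del v‖) with ht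
  have ht2 : t ^ 2 = n * ‖del v‖ := Real.sq_sqrt (by positivity)
  have ht0 : 0 ≤ t := Real.sqrt_nonneg _
  have b1 := fun i => norm_le_of_nsq (by rw [ht2]; exact h1) ht0 (v := v) i
  have b2 := fun i => norm_le_of_nsq (by rw [ht2]; exact h2) ht0 (v := rhoM M *ᵥ v) i
  rw [rhoM_mulVec] at b2
  have c0 : ‖M 0 0 * v 0 + M 0 1 * v 1‖ ≤ t := by simpa using b2 0
  have c1 : ‖M 1 0 * v 0 + M 1 1 * v 1‖ ≤ t := by simpa using b2 1
  have c2 : ‖M 0 0 * conj (v 2) + M 0 1 * conj (v 3)‖ ≤ t := by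
    have h := b2 2
    have e : M 0 0 * conj (v 2) + M 0 1 * conj (v 3) = conj (conj (M 0 0) * v 2 + conj (M 0 1) * v 3) := by
      simp
    rw [e, RCLike.norm_conj]
    simpa using h
  have c3 : ‖M 1 0 * conj (v 2) + M 1 1 * conj (v 3)‖ ≤ t := by
    have h := b2 3
    have e : M 1 0 * conj (v 2) + M 1 1 * conj (v 3) = conj (conj (M 1 0) * v 2 + conj (M 1 1) * v 3) := by
      simp
    rw [e, RCLike.norm_conj]
    simpa using h
  have key : ∀ x p q a b : ℂ, x * del v = p * a - q * b → ‖p‖ ≤ t → ‖q‖ ≤ t → ‖a‖ ≤ t → ‖b‖ ≤ t →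
      ‖x‖ ≤ 2 * n := by
    intro x p q a b hx hp hq ha hb
    have h3 : ‖x‖ * ‖del v‖ ≤ 2 * (n * ‖del v‖) := by
      rw [← norm_mul, hx]
      refine (norm_sub_le _ _).trans ?_
      rw [norm_mul, norm_mul, ← ht2]
      have e1 := mul_le_mul hp ha (norm_nonneg _) ht0
      have e2 := mul_le_mul hq hb (norm_nonneg _) ht0
      nlinarith
    by_contra hcon
    push Not at hcon
    nlinarith
  have d3 : ‖conj (v 3)‖ ≤ t := by rw [RCLike.norm_conj]; exact b1 3
  have d2 : ‖conj (v 2)‖ ≤ t := by rw [RCLike.norm_conj]; exact b1 2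
  intro i j
  fin_cases i <;> fin_cases j
  · exact key _ _ _ (conj (v 3)) (v 1) (by simp only [del]; simp; ring) c0 c2 d3 (b1 1)
  · exact key _ _ _ (v 0) (conj (v 2)) (by simp only [del]; simp; ring) c2 c0 (b1 0) d2
  · exact key _ _ _ (conj (v 3)) (v 1) (by simp only [del]; simp; ring) c1 c3 d3 (b1 1)
  · exact key _ _ _ (v 0) (conj (v 2)) (by simp only [del]; simp; ring) c3 c1 (b1 0) d2

lemma pd_Dom : ∀ K ⊆ Dom, IsCompact K → {γ | γ ∈ Gam ∧ ∃ x ∈ K, γ • x ∈ K}.Finite := by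
  intro K hKD hK
  obtain ⟨n, hn⟩ : ∃ n, K ⊆ Dn n :=
    hK.elim_directed_cover Dn isOpen_Dn (hKD.trans Dom_subset) Dn_mono.directed_le
  refine Set.Finite.subset ((discrete (2 * (n + 1))).image rho) ?_
  rintro _ ⟨⟨g, hg, rfl⟩, x, hxK, hgx⟩
  refine ⟨g, ⟨hg, ?_⟩, rfl⟩
  have hxD := hKD hxK
  have hx1 := hn hxK
  have hx2 := hn hgx
  induction x using Projectivization.ind with
  | h v hv =>
    rw [mk_mem_Dom] at hxD
    rw [mk_mem_Dn] at hx1
    rw [Projectivization.smul_mk, mk_mem_Dn] at hx2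
    change nsq (rhoM (g : Matrix (Fin 2) (Fin 2) ℂ) *ᵥ v) <
      n * ‖del (rhoM (g : Matrix (Fin 2) (Fin 2) ℂ) *ᵥ v)‖ at hx2
    rw [del_rho] at hx2
    have hdp := norm_pos_iff.2 hxD
    exact EB_of_bounds (by positivity) hxD (by nlinarith) (by nlinarith)

/-- the compact sets -/
noncomputable def Kc (C : ℝ) : Set CP3 :=
  Set.range (fun v : {v : Fin 4 → ℂ // nsq v = 1 ∧ 1 ≤ C * ‖del v‖} =>
    Projectivization.mk ℂ v.1 (by
      intro h
      have := v.2.1
      rw [h] at this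
      simp [nsq] at this))

lemma isCompact_Kc (C : ℝ) : IsCompact (Kc C) := by
  have hcomp : IsCompact {v : Fin 4 → ℂ | nsq v = 1 ∧ 1 ≤ C * ‖del v‖} := by
    have hclosed : IsClosed {v : Fin 4 → ℂ | nsq v = 1 ∧ 1 ≤ C * ‖del v‖} :=
      (isClosed_eq continuous_nsq continuous_const).inter
        (isClosed_le continuous_const (continuous_const.mul continuous_del.norm))
    refine IsCompact.of_isClosed_subset (isCompact_closedBall (0 : Fin 4 → ℂ) 1) hclosed ?_
    rintro v ⟨hv, _⟩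
    rw [mem_closedBall_zero_iff, pi_norm_le_iff_of_nonneg zero_le_one]
    intro i
    exact norm_le_of_nsq (by rw [hv]; norm_num) zero_le_one i
  have : CompactSpace {v : Fin 4 → ℂ // nsq v = 1 ∧ 1 ≤ C * ‖del v‖} :=
    isCompact_iff_compactSpace.1 hcomp
  refine isCompact_range ?_
  exact continuous_mk'.comp (Continuous.subtype_mk continuous_subtype_val _)

lemma mk_mem_Kc {C : ℝ} {v : Fin 4 → ℂ} (hv : v ≠ 0) (h : nsq v ≤ C * ‖del v‖) :
    Projectivization.mk ℂ v hv ∈ Kc C := by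
  have hp := nsq_pos hv
  set t : ℝ := (Real.sqrt (nsq v))⁻¹ with ht
  have hs : 0 < Real.sqrt (nsq v) := Real.sqrt_pos.2 hp
  have ht0 : 0 < t := by positivity
  have ht2 : t ^ 2 * nsq v = 1 := by
    rw [ht, inv_pow, Real.sq_sqrt hp.le]
    field_simp
  have htn : ‖(t : ℂ)‖ = t := by rw [Complex.norm_real, Real.norm_of_nonneg ht0.le]
  have h1 : nsq ((t : ℂ) • v) = 1 := by rw [nsq_smul, htn, ht2]
  have h2 : 1 ≤ C * ‖del ((t : ℂ) • v)‖ := by
    rw [norm_del_smul, htn]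
    nlinarith [mul_le_mul_of_nonneg_left h (sq_nonneg t)]
  refine ⟨⟨(t : ℂ) • v, h1, h2⟩, ?_⟩
  change Projectivization.mk ℂ ((t : ℂ) • v) _ = _
  rw [Projectivization.mk_eq_mk_iff']
  exact ⟨(t : ℂ), rfl⟩

lemma Kc_subset (C : ℝ) : Kc C ⊆ Dom := by
  rintro _ ⟨⟨v, hv1, hv2⟩, rfl⟩
  rw [mk_mem_Dom]
  intro h
  rw [h] at hv2
  simp at hv2
  linarith

lemma cocompact_Dom : ∃ K ⊆ Dom, IsCompact K ∧ ∀ x ∈ Dom, ∃ γ ∈ Gam, γ • x ∈ K := by
  obtain ⟨C, hC0, hC⟩ := cocompact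
  refine ⟨Kc (4 * C ^ 2), Kc_subset _, isCompact_Kc _, ?_⟩
  intro x hx
  induction x using Projectivization.ind with
  | h v hv =>
    rw [mk_mem_Dom] at hx
    have hdp := norm_pos_iff.2 hx
    -- rescale
    set t : ℝ := (Real.sqrt ‖del v‖)⁻¹ with ht
    have hs : 0 < Real.sqrt ‖del v‖ := Real.sqrt_pos.2 hdp
    have ht0 : 0 < t := by positivity
    have ht2 : t ^ 2 * ‖del v‖ = 1 := by
      rw [ht, inv_pow, Real.sq_sqrt hdp.le]
      field_simp
    have htn : ‖(t : ℂ)‖ = t := by rw [Complex.norm_real, Real.norm_of_nonneg ht0.le]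
    set w : Fin 4 → ℂ := (t : ℂ) • v with hw
    have hw0 : w ≠ 0 := smul_ne_zero (by exact_mod_cast ht0.ne') hv
    have hwd : ‖del w‖ = 1 := by rw [hw, norm_del_smul, htn, ht2]
    have hwd0 : del w ≠ 0 := by
      intro h; rw [h] at hwd; simp at hwd
    have hmk : Projectivization.mk ℂ v hv = Projectivization.mk ℂ w hw0 := by
      rw [Projectivization.mk_eq_mk_iff']
      refine ⟨(t : ℂ)⁻¹, ?_⟩
      rw [hw, smul_smul, inv_mul_cancel₀ (by exact_mod_cast ht0.ne'), one_smul]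
    let G : SpecialLinearGroup (Fin 2) ℂ :=
      ⟨!![w 0, conj (w 2) / del w; w 1, conj (w 3) / del w], by
        rw [Matrix.det_fin_two]
        simp only [Matrix.of_apply, Matrix.cons_val', Matrix.cons_val_zero, Matrix.cons_val_one,
          Matrix.cons_val_fin_one]
        field_simp
        simp only [del]
        ring⟩
    obtain ⟨γ, hγ, hb⟩ := hC G
    refine ⟨rho γ, ⟨γ, hγ, rfl⟩, ?_⟩
    rw [hmk, Projectivization.smul_mk]
    apply mk_mem_Kc
    change nsq (rhoM (γ : Matrix (Fin 2) (Fin 2) ℂ) *ᵥ w) ≤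
      4 * C ^ 2 * ‖del (rhoM (γ : Matrix (Fin 2) (Fin 2) ℂ) *ᵥ w)‖
    rw [del_rho, hwd, mul_one, rhoM_mulVec]
    set M : Matrix (Fin 2) (Fin 2) ℂ := (γ : Matrix (Fin 2) (Fin 2) ℂ) with hM
    have hb' : EB (M * !![w 0, conj (w 2) / del w; w 1, conj (w 3) / del w]) C := hb
    have c00 := hb' 0 0
    have c01 := hb' 0 1
    have c10 := hb' 1 0
    have c11 := hb' 1 1
    simp only [Matrix.mul_apply, Fin.sum_univ_two, Matrix.of_apply, Matrix.cons_val',
      Matrix.cons_val_zero, Matrix.cons_val_one, Matrix.cons_val_fin_one] at c00 c01 c10 c11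
    have c2 : ‖conj (M 0 0) * w 2 + conj (M 0 1) * w 3‖ ≤ C := by
      have e : conj (M 0 0) * w 2 + conj (M 0 1) * w 3 =
          conj (del w * (M 0 0 * (conj (w 2) / del w) + M 0 1 * (conj (w 3) / del w))) := by
        have : del w * (M 0 0 * (conj (w 2) / del w) + M 0 1 * (conj (w 3) / del w)) =
            M 0 0 * conj (w 2) + M 0 1 * conj (w 3) := by field_simp
        rw [this]; simp
      rw [e, RCLike.norm_conj, norm_mul, hwd, one_mul]
      exact c01
    have c3 : ‖conj (M 1 0) * w 2 + conj (M 1 1) * w 3‖ ≤ C := by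
      have e : conj (M 1 0) * w 2 + conj (M 1 1) * w 3 =
          conj (del w * (M 1 0 * (conj (w 2) / del w) + M 1 1 * (conj (w 3) / del w))) := by
        have : del w * (M 1 0 * (conj (w 2) / del w) + M 1 1 * (conj (w 3) / del w)) =
            M 1 0 * conj (w 2) + M 1 1 * conj (w 3) := by field_simp
        rw [this]; simp
      rw [e, RCLike.norm_conj, norm_mul, hwd, one_mul]
      exact c11
    simp only [nsq, Matrix.cons_val_zero, Matrix.cons_val_one, Matrix.cons_val]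
    have f0 := pow_le_pow_left₀ (norm_nonneg _) c00 2
    have f1 := pow_le_pow_left₀ (norm_nonneg _) c10 2
    have f2 := pow_le_pow_left₀ (norm_nonneg _) c2 2
    have f3 := pow_le_pow_left₀ (norm_nonneg _) c3 2
    linarith

end Pool.Agent.J6H37.Twistor
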