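import Mathlib
import Pool.Agent.J6H37.Twistor.Geometry

/-!
# Connectedness, smoothness and CR dimension
-/

namespace Pool.Agent.J6H37.Twistor

open Matrix ComplexConjugate
open scoped ContDiff

/-- determinant of a pair of vectors, complex bilinear version -/
noncomputable def dt (m : Fin 4 → ℂ) : ℂ := m 0 * m 3 - m 1 * m 2

/-- conjugate the last two coordinates -/
noncomputable def cj (m : Fin 4 → ℂ) : Fin 4 → ℂ := ![m 0, m 1, conj (m 2), conj (m 3)]

lemma continuous_cj : Continuous cj := by
  unfold cj
  refine continuous_pi (fun i => ?_)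
  fin_cases i <;> simp <;> fun_prop

lemma cj_cj (m : Fin 4 → ℂ) : cj (cj m) = m := by
  funext i
  fin_cases i <;> simp [cj]

lemma del_cj (m : Fin 4 → ℂ) : del (cj m) = dt m := by
  simp [del, cj, dt]

lemma preconn_dt : IsPreconnected {m : Fin 4 → ℂ | dt m ≠ 0} := by
  refine isPreconnected_of_forall_pair (fun m hm m' hm' => ?_)
  let L : ℂ → (Fin 4 → ℂ) := fun z => (1 - z) • m + z • m'
  have hL : Continuous L := by fun_prop
  let p : Polynomial ℂ :=
    (Polynomial.C (m 0) + Polynomial.C (m' 0 - m 0) * Polynomial.X) *
      (Polynomial.C (m 3) + Polynomial.C (m' 3 - m 3) * Polynomial.X) -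
    (Polynomial.C (m 1) + Polynomial.C (m' 1 - m 1) * Polynomial.X) *
      (Polynomial.C (m 2) + Polynomial.C (m' 2 - m 2) * Polynomial.X)
  have hp : ∀ z, p.eval z = dt (L z) := by
    intro z
    simp [p, dt, L]
    ring
  have hp0 : p ≠ 0 := by
    intro h
    have := hp 0
    rw [h] at this
    simp [L] at this
    exact hm this.symm
  have hfin : {z : ℂ | p.eval z = 0}.Finite := by
    refine Set.Finite.subset p.roots.toFinset.finite_toSet ?_
    intro z hz
    simp [Polynomial.mem_roots hp0]
    exact hz
  have hconn : IsPathConnected {z : ℂ | p.eval z = 0}ᶜ :=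
    hfin.countable.isPathConnected_compl_of_one_lt_rank
      (by rw [Complex.rank_real_complex]; norm_num)
  refine ⟨L '' {z : ℂ | p.eval z = 0}ᶜ, ?_, ?_, ?_, ?_⟩
  · rintro _ ⟨z, hz, rfl⟩
    change dt (L z) ≠ 0
    rw [← hp]
    exact hz
  · refine ⟨0, ?_, by simp [L]⟩
    change p.eval 0 ≠ 0
    rw [hp]
    simpa [L] using hm
  · refine ⟨1, ?_, by simp [L]⟩
    change p.eval 1 ≠ 0
    rw [hp]
    simpa [L] using hm'
  · exact (hconn.isConnected.isPreconnected).image _ hL.continuousOn

lemma conn_Dom : IsConnected Dom := by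
  have hconn : IsConnected {m : Fin 4 → ℂ | dt m ≠ 0} :=
    ⟨⟨![1, 0, 0, 1], by simp [dt]⟩, preconn_dt⟩
  have : ConnectedSpace {m : Fin 4 → ℂ // dt m ≠ 0} := isConnected_iff_connectedSpace.1 hconn
  have hne : ∀ m : {m : Fin 4 → ℂ // dt m ≠ 0}, cj m.1 ≠ 0 := by
    rintro ⟨m, hm⟩ h
    apply hm
    rw [← del_cj, h]
    simp [del]
  let f : {m : Fin 4 → ℂ // dt m ≠ 0} → CP3 := fun m => Projectivization.mk ℂ (cj m.1) (hne m)
  have hf : Continuous f :=
    continuous_mk'.comp (Continuous.subtype_mk (continuous_cj.comp continuous_subtype_val) _)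
  have hrange : Set.range f = Dom := by
    ext x
    induction x using Projectivization.ind with
    | h v hv =>
      constructor
      · rintro ⟨m, hm⟩
        rw [← hm]
        change Projectivization.mk ℂ _ _ ∈ Dom
        rw [mk_mem_Dom, del_cj]
        exact m.2
      · intro hx
        rw [mk_mem_Dom] at hx
        have h1 : dt (cj v) ≠ 0 := by rw [← del_cj, cj_cj]; exact hx
        refine ⟨⟨cj v, h1⟩, ?_⟩
        change Projectivization.mk ℂ (cj (cj v)) _ = _
        congr 1
        exact cj_cj v
  rw [← hrange]
  exact isConnected_range hf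

lemma mk_mem_compl {v : Fin 4 → ℂ} (hv : v ≠ 0) :
    Projectivization.mk ℂ v hv ∈ Domᶜ ↔ del v = 0 := by
  rw [Set.mem_compl_iff, mk_mem_Dom, not_not]

lemma conn_compl : IsConnected (Domᶜ : Set CP3) := by
  have hconn : IsConnected ({0}ᶜ : Set (Fin 2 → ℂ)) := by
    apply isConnected_compl_singleton_of_one_lt_rank
    have h : Module.finrank ℝ (Fin 2 → ℂ) = 4 := by
      simp [Module.finrank_pi_fintype, Complex.finrank_real_complex]
    rw [← Module.finrank_eq_rank, h]
    norm_num
  have : ConnectedSpace ({0}ᶜ : Set (Fin 2 → ℂ)) := isConnected_iff_connectedSpace.1 hconn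
  let g : ((Fin 2 → ℂ) × (Fin 2 → ℂ)) → (Fin 4 → ℂ) := fun p =>
    ![p.2 0 * p.1 0, p.2 0 * p.1 1, p.2 1 * conj (p.1 0), p.2 1 * conj (p.1 1)]
  have hg : Continuous g := by
    refine continuous_pi (fun i => ?_)
    fin_cases i <;> simp [g] <;> fun_prop
  have hne : ∀ p : ({0}ᶜ : Set (Fin 2 → ℂ)) × ({0}ᶜ : Set (Fin 2 → ℂ)), g (p.1.1, p.2.1) ≠ 0 := by
    rintro ⟨⟨x, hx⟩, ⟨s, hs⟩⟩ h
    have h0 : s 0 * x 0 = 0 := congrFun h 0
    have h1 : s 0 * x 1 = 0 := congrFun h 1
    have h2 : s 1 * conj (x 0) = 0 := congrFun h 2
    have h3 : s 1 * conj (x 1) = 0 := congrFun h 3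
    have hx' : x 0 ≠ 0 ∨ x 1 ≠ 0 := by
      by_contra hcon
      push Not at hcon
      apply hx
      funext i
      fin_cases i
      · exact hcon.1
      · exact hcon.2
    have hs' : s 0 ≠ 0 ∨ s 1 ≠ 0 := by
      by_contra hcon
      push Not at hcon
      apply hs
      funext i
      fin_cases i
      · exact hcon.1
      · exact hcon.2
    simp only [mul_eq_zero, map_eq_zero] at h0 h1 h2 h3
    tauto
  let f : ({0}ᶜ : Set (Fin 2 → ℂ)) × ({0}ᶜ : Set (Fin 2 → ℂ)) → CP3 :=
    fun p => Projectivization.mk ℂ (g (p.1.1, p.2.1)) (hne p)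
  have hf : Continuous f := by
    refine continuous_mk'.comp (Continuous.subtype_mk (hg.comp ?_) _)
    fun_prop
  have hrange : Set.range f = Domᶜ := by
    ext x
    induction x using Projectivization.ind with
    | h v hv =>
      constructor
      · rintro ⟨p, hp⟩
        rw [← hp]
        change Projectivization.mk ℂ _ _ ∈ Domᶜ
        rw [mk_mem_compl]
        simp [g, del]
        ring
      · intro hx
        rw [mk_mem_compl] at hx
        simp only [del] at hx
        by_cases hu : v 0 = 0 ∧ v 1 = 0
        · -- take s = (0, 1), x = conj w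
          have hx0 : (![conj (v 2), conj (v 3)] : Fin 2 → ℂ) ≠ 0 := by
            intro h
            have a2 : conj (v 2) = 0 := congrFun h 0
            have a3 : conj (v 3) = 0 := congrFun h 1
            rw [map_eq_zero] at a2 a3
            apply hv
            funext i
            fin_cases i
            · exact hu.1
            · exact hu.2
            · exact a2
            · exact a3
          have hs0 : (![0, 1] : Fin 2 → ℂ) ≠ 0 := by
            intro h
            have : (1 : ℂ) = 0 := congrFun h 1
            norm_num at this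
          refine ⟨⟨⟨_, hx0⟩, ⟨_, hs0⟩⟩, ?_⟩
          change Projectivization.mk ℂ (g (_, _)) _ = _
          congr 1
          funext i
          fin_cases i <;> simp [g, hu.1, hu.2]
        · -- u ≠ 0
          have hx0 : (![v 0, v 1] : Fin 2 → ℂ) ≠ 0 := by
            intro h
            exact hu ⟨congrFun h 0, congrFun h 1⟩
          obtain ⟨c, hc2, hc3⟩ : ∃ c : ℂ, v 2 = c * conj (v 0) ∧ v 3 = c * conj (v 1) := by
            by_cases h0 : v 0 = 0
            · have h1 : v 1 ≠ 0 := fun h => hu ⟨h0, h⟩
              have h1' : conj (v 1) ≠ 0 := by simpa using h1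
              refine ⟨v 3 / conj (v 1), ?_, ?_⟩
              · rw [h0] at hx
                have : conj (v 2) = 0 := by
                  have h5 : v 1 * conj (v 2) = 0 := by linear_combination -hx
                  simpa [h1] using h5
                rw [map_eq_zero] at this
                rw [this, h0]; simp
              · field_simp
            · have h0' : conj (v 0) ≠ 0 := by simpa using h0
              refine ⟨v 2 / conj (v 0), ?_, ?_⟩
              · field_simp
              · have h5 : conj (v 0) * v 3 = conj (v 1) * v 2 := by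
                  have := congrArg conj hx
                  simp at this
                  linear_combination this
                field_simp
                linear_combination h5
          have hs0 : (![1, c] : Fin 2 → ℂ) ≠ 0 := by
            intro h
            have : (1 : ℂ) = 0 := congrFun h 0
            norm_num at this
          refine ⟨⟨⟨_, hx0⟩, ⟨_, hs0⟩⟩, ?_⟩
          change Projectivization.mk ℂ (g (_, _)) _ = _
          congr 1
          funext i
          fin_cases i <;> simp [g, hc2, hc3]
  rw [← hrange]
  exact isConnected_range hf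

end Pool.Agent.J6H37.Twistor
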