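import Mathlib
import Pool.Agent.J6H37.Twistor.Final

/-!
# Smoothness and CR dimension
-/

namespace Pool.Agent.J6H37.Twistor

open Matrix ComplexConjugate
open scoped ContDiff

/-- coordinate projection -/
noncomputable def P (j : Fin 3) : (Fin 3 → ℂ) →L[ℝ] ℂ := ContinuousLinearMap.proj j

/-- conjugate coordinate projection -/
noncomputable def Q (j : Fin 3) : (Fin 3 → ℂ) →L[ℝ] ℂ :=
  (Complex.conjCLE : ℂ →L[ℝ] ℂ).comp (P j)

@[simp] lemma P_apply (j : Fin 3) (h : Fin 3 → ℂ) : P j h = h j := rfl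

@[simp] lemma Q_apply (j : Fin 3) (h : Fin 3 → ℂ) : Q j h = conj (h j) := rfl

/-- defining function in the chart `i` -/
noncomputable def Fd (i : Fin 4) (z : Fin 3 → ℂ) : ℂ := del (i.insertNth (1 : ℂ) z)

lemma Fd0 : Fd 0 = fun z => Q 2 z - P 0 z * Q 1 z := by
  funext z
  simp [Fd, del]
  rfl

lemma Fd1 : Fd 1 = fun z => P 0 z * Q 2 z - Q 1 z := by
  funext z
  have e0 : (1 : Fin 4).insertNth (α := fun _ => ℂ) 1 z 0 = z 0 := rfl
  have e2 : (1 : Fin 4).insertNth (α := fun _ => ℂ) 1 z 2 = z 1 := rfl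
  have e3 : (1 : Fin 4).insertNth (α := fun _ => ℂ) 1 z 3 = z 2 := rfl
  simp [Fd, del, e0, e2, e3]

lemma Fd2 : Fd 2 = fun z => P 0 z * Q 2 z - P 1 z := by
  funext z
  have e0 : (2 : Fin 4).insertNth (α := fun _ => ℂ) 1 z 0 = z 0 := rfl
  have e1 : (2 : Fin 4).insertNth (α := fun _ => ℂ) 1 z 1 = z 1 := rfl
  have e3 : (2 : Fin 4).insertNth (α := fun _ => ℂ) 1 z 3 = z 2 := rfl
  simp [Fd, del, e0, e1, e3]

lemma Fd3 : Fd 3 = fun z => P 0 z - P 1 z * Q 2 z := by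
  funext z
  have e0 : (3 : Fin 4).insertNth (α := fun _ => ℂ) 1 z 0 = z 0 := rfl
  have e1 : (3 : Fin 4).insertNth (α := fun _ => ℂ) 1 z 1 = z 1 := rfl
  have e2 : (3 : Fin 4).insertNth (α := fun _ => ℂ) 1 z 2 = z 2 := rfl
  simp [Fd, del, e0, e1, e2]

lemma contDiff_Fd (i : Fin 4) : ContDiff ℝ ∞ (Fd i) := by
  fin_cases i
  · change ContDiff ℝ ∞ (Fd 0)
    rw [Fd0]; fun_prop
  · change ContDiff ℝ ∞ (Fd 1)
    rw [Fd1]; fun_prop
  · change ContDiff ℝ ∞ (Fd 2)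
    rw [Fd2]; fun_prop
  · change ContDiff ℝ ∞ (Fd 3)
    rw [Fd3]; fun_prop

lemma deriv_Fd0 (z : Fin 3 → ℂ) :
    HasFDerivAt (Fd 0) (Q 2 - (P 0 z • Q 1 + Q 1 z • P 0)) z := by
  rw [Fd0]
  exact ((Q 2).hasFDerivAt).sub (((P 0).hasFDerivAt).mul ((Q 1).hasFDerivAt))

lemma deriv_Fd1 (z : Fin 3 → ℂ) :
    HasFDerivAt (Fd 1) ((P 0 z • Q 2 + Q 2 z • P 0) - Q 1) z := by
  rw [Fd1]
  exact (((P 0).hasFDerivAt).mul ((Q 2).hasFDerivAt)).sub ((Q 1).hasFDerivAt)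

lemma deriv_Fd2 (z : Fin 3 → ℂ) :
    HasFDerivAt (Fd 2) ((P 0 z • Q 2 + Q 2 z • P 0) - P 1) z := by
  rw [Fd2]
  exact (((P 0).hasFDerivAt).mul ((Q 2).hasFDerivAt)).sub ((P 1).hasFDerivAt)

lemma deriv_Fd3 (z : Fin 3 → ℂ) :
    HasFDerivAt (Fd 3) (P 0 - (P 1 z • Q 2 + Q 2 z • P 1)) z := by
  rw [Fd3]
  exact ((P 0).hasFDerivAt).sub (((P 1).hasFDerivAt).mul ((Q 2).hasFDerivAt))

lemma surj_Fd (i : Fin 4) (z : Fin 3 → ℂ) : Function.Surjective (fderiv ℝ (Fd i) z) := by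
  intro w
  fin_cases i
  · change ∃ a, fderiv ℝ (Fd 0) z a = w
    rw [(deriv_Fd0 z).fderiv]
    exact ⟨![0, 0, conj w], by simp⟩
  · change ∃ a, fderiv ℝ (Fd 1) z a = w
    rw [(deriv_Fd1 z).fderiv]
    exact ⟨![0, -conj w, 0], by simp⟩
  · change ∃ a, fderiv ℝ (Fd 2) z a = w
    rw [(deriv_Fd2 z).fderiv]
    exact ⟨![0, -w, 0], by simp⟩
  · change ∃ a, fderiv ℝ (Fd 3) z a = w
    rw [(deriv_Fd3 z).fderiv]
    exact ⟨![w, 0, 0], by simp⟩

lemma chart_mem (i : Fin 4) (z : Fin 3 → ℂ) : chart i z ∈ Domᶜ ↔ Fd i z = 0 := by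
  unfold chart
  rw [mk_mem_compl]
  rfl

lemma hasTangent (i : Fin 4) (z : Fin 3 → ℂ) (hz : Fd i z = 0) :
    HasTangentSpace (chart i ⁻¹' Domᶜ) z (fderiv ℝ (Fd i) z).ker := by
  refine ⟨Set.univ, Fd i, isOpen_univ, trivial, contDiff_Fd i, hz, ?_, fun y _ => surj_Fd i y, rfl⟩
  rw [Set.inter_univ, Set.inter_univ]
  ext y
  exact chart_mem i y

theorem smooth_compl : IsSmoothRealFour Domᶜ :=
  fun i z hz => ⟨_, hasTangent i z ((chart_mem i z).1 hz)⟩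

theorem cr_two : ∃ p ∈ Domᶜ, HasCRDim Domᶜ p 2 := by
  have h0 : Fd 0 0 = 0 := by rw [Fd0]; simp
  refine ⟨chart 0 0, (chart_mem 0 0).2 h0, 0, 0, _, rfl, hasTangent 0 0 h0, ?_⟩
  have e : complexPart (fderiv ℝ (Fd 0) 0).ker =
      LinearMap.ker (LinearMap.proj (R := ℂ) (φ := fun _ : Fin 3 => ℂ) 2) := by
    ext h
    rw [(deriv_Fd0 0).fderiv]
    change (h ∈ _ ∧ Complex.I • h ∈ _) ↔ _
    simp [LinearMap.mem_ker]
  rw [e]
  have h1 := LinearMap.finrank_range_add_finrank_ker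
    (LinearMap.proj (R := ℂ) (φ := fun _ : Fin 3 => ℂ) 2)
  have h2 : LinearMap.range (LinearMap.proj (R := ℂ) (φ := fun _ : Fin 3 => ℂ) 2) = ⊤ := by
    rw [LinearMap.range_eq_top]
    exact Function.surjective_eval 2
  rw [h2, finrank_top, Module.finrank_self, Module.finrank_fin_fun] at h1
  omega

theorem cr_one : ∃ p ∈ Domᶜ, HasCRDim Domᶜ p 1 := by
  have h0 : Fd 0 ![0, 1, 0] = 0 := by rw [Fd0]; simp
  refine ⟨chart 0 ![0, 1, 0], (chart_mem 0 _).2 h0, 0, ![0, 1, 0], _, rfl, hasTangent 0 _ h0, ?_⟩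
  have e : complexPart (fderiv ℝ (Fd 0) ![0, 1, 0]).ker =
      Submodule.span ℂ {(Pi.single 1 1 : Fin 3 → ℂ)} := by
    ext h
    rw [(deriv_Fd0 _).fderiv, Submodule.mem_span_singleton]
    change (h ∈ _ ∧ Complex.I • h ∈ _) ↔ _
    simp only [LinearMap.mem_ker, ContinuousLinearMap.coe_coe]
    simp
    constructor
    · rintro ⟨h1, h2⟩
      have h3 : h 0 = 0 := by
        have h4 : conj (h 2) = h 0 := by linear_combination h1
        have h5 : -(Complex.I * conj (h 2)) = Complex.I * h 0 := by linear_combination h2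
        rw [h4] at h5
        have h6 : Complex.I * h 0 = 0 := by linear_combination -h5 / 2
        simpa using h6
      have h7 : h 2 = 0 := by
        rw [h3] at h1
        simpa using h1
      refine ⟨h 1, ?_⟩
      funext j
      fin_cases j <;> simp [h3, h7]
    · rintro ⟨a, rfl⟩
      simp
  rw [e, finrank_span_singleton]
  intro h
  have := congrFun h 1
  simp at this

end Pool.Agent.J6H37.Twistor
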